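import Pool.Agent.H61.CkH

set_option autoImplicit false

namespace Pool.Agent.Results.MP_2806c7_co.Linear

open MeasureTheory

theorem result (r n m : ℕ) (hr : 1 ≤ r) (μ : Fin n → Fin m → Measure ℝ)
    [∀ k j, IsFiniteMeasure (μ k j)] (hμ : ∀ k j x, μ k j {x} = 0) :
    ∃ A : Fin n → Fin r → Set ℝ, (∀ k c, MeasurableSet (A k c)) ∧
      (∀ k c d, c ≠ d → Disjoint (A k c) (A k d)) ∧ (∀ k, (⋃ c, A k c) = Set.Icc 0 1) ∧
      (∀ c j, ∑ k, (μ k j).real (A k c) = (∑ k, (μ k j).real (Set.Icc 0 1)) / (r : ℝ)) ∧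
      {k | ∀ c, A k c ≠ Set.Icc 0 1}.ncard ≤ (r - 1) * m ∧
      ∀ c, (n : ℝ) / r -
          (1 + ((r.bitIndices.toFinset.card : ℝ) - 2) / 2 ^ Nat.log 2 r) * ((m : ℝ) + 1)
        ≤ ({k | A k c = Set.Icc 0 1}.ncard : ℝ) := by
  classical
  obtain ⟨s, rfl⟩ : ∃ s, r = s + 1 := ⟨r - 1, by omega⟩
  have : ∀ k j, NullSingletonClass (μ k j) := fun k j => ⟨hμ k j⟩
  obtain ⟨y, y0, y1, y2, y3, y4⟩ := Pool.Agent.H61.Ck.good_bits
    (v := fun k j => (μ k j).real (Set.Icc 0 1)) (s + 1) (by omega) (Finset.univ : Finset (Fin (s + 1)))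
    (by simp) Finset.univ
  have hA := fun k => Pool.Agent.H61.Ck.cutF (μ k) s (y k) (y0 k) (y1 k (Finset.mem_univ _))
  choose A a1 a2 a3 a4 a5 using hA
  refine ⟨A, a1, a2, a3, fun c j => ?_, ?_, fun c => ?_⟩
  · simp only [a4]
    exact y2 c (Finset.mem_univ _) j
  · rw [Set.ncard_eq_toFinset_card', mul_comm]
    refine le_trans (Finset.card_le_card ?_) y3
    intro k hk
    simp only [Set.mem_toFinset, Set.mem_ofPred_eq] at hk
    simp only [Finset.mem_filter]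
    exact ⟨Finset.mem_univ _, fun c _ h => hk c (a5 k c h)⟩
  · have h := y4 c (Finset.mem_univ _)
    simp only [Finset.card_univ, Fintype.card_fin] at h
    refine h.trans ?_
    rw [Set.ncard_eq_toFinset_card']
    norm_cast
    apply Finset.card_le_card
    intro k hk
    simp only [Set.mem_toFinset, Set.mem_ofPred_eq]
    exact a5 k c (Finset.mem_filter.1 hk).2

end Pool.Agent.Results.MP_2806c7_co.Linear
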