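import Pool.Agent.H61.CkA

set_option autoImplicit false

namespace Pool.Agent.Results.MP_2806c7_co.OneKind

open MeasureTheory

theorem result (r n : ℕ) (hr : 0 < r) (μ : Fin n → Measure ℝ) [∀ k, IsFiniteMeasure (μ k)]
    (hμ : ∀ k x, μ k {x} = 0) :
    ∃ A : Fin n → Fin r → Set ℝ, (∀ k c, MeasurableSet (A k c)) ∧
      (∀ k c d, c ≠ d → Disjoint (A k c) (A k d)) ∧ (∀ k, (⋃ c, A k c) = Set.Icc 0 1) ∧
      (∀ c, ∑ k, (μ k).real (A k c) = (∑ k, (μ k).real (Set.Icc 0 1)) / (r : ℝ)) ∧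
      {k | ∀ c, A k c ≠ Set.Icc 0 1}.ncard ≤ r - 1 ∧
      ∀ c, (n - (r - 1)) / r ≤ {k | A k c = Set.Icc 0 1}.ncard := by
  classical
  obtain ⟨s, rfl⟩ : ∃ s, r = s + 1 := ⟨r - 1, by omega⟩
  haveI : ∀ k, NullSingletonClass (μ k) := fun k => ⟨hμ k⟩
  obtain ⟨A, h1, h2, h3, h4, h5, h6⟩ := Pool.Agent.H61.Ck.main s n μ
  refine ⟨A, h1, h2, h3, fun c => by push_cast; exact h4 c, ?_, fun c => ?_⟩
  · rw [Set.ncard_eq_toFinset_card']
    simpa using h5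
  · rw [Set.ncard_eq_toFinset_card']
    simpa using h6 c

end Pool.Agent.Results.MP_2806c7_co.OneKind
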